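import Pool.Agent.L7h28.HF.Stm

/-!
# Project HF (helper28), parts LA and OPN (helper87)
-/

set_option autoImplicit false

noncomputable section

namespace Pool.Agent.L7h87.HF

open Set Filter Topology Pool.Agent.L7h28.HF

lemma frm_cont (n : ℕ) (h : ℕ → ℝ) : Continuous (frm n h) := by
  unfold frm
  fun_prop

lemma frm_diff (n : ℕ) (h : ℕ → ℝ) : Differentiable ℝ (frm n h) := by
  unfold frm
  fun_prop

lemma G_cont (a : ℝ) (b c : ℕ → ℝ) : Continuous (fun p : ℝ × ℝ => G a b c p.1 p.2) := by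
  unfold G
  have h1 : Continuous (fun p : ℝ × ℝ => frm 4 b p.1) := (frm_cont 4 b).comp continuous_fst
  have h2 : Continuous (fun p : ℝ × ℝ => frm 8 c p.1) := (frm_cont 8 c).comp continuous_fst
  fun_prop

/-- points of the curve near a point of `K` are in `K` -/
lemma near {a : ℝ} {b c : ℕ → ℝ} {K : Set (ℝ × ℝ)} (hK : Pc a b c K) {θ0 τ0 : ℝ}
    (h : (θ0, τ0) ∈ K) : ∃ r : ℝ, 0 < r ∧ ∀ θ τ : ℝ, |θ - θ0| < r → |τ - τ0| < r →
      G a b c θ τ = 0 → (θ, τ) ∈ K := by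
  have h1 : ({p : ℝ × ℝ | G a b c p.1 p.2 = 0} \ K)ᶜ ∈ 𝓝 (θ0, τ0) := by
    apply hK.rest.isOpen_compl.mem_nhds
    intro h2
    exact h2.2 h
  obtain ⟨r, hr, hb⟩ := Metric.mem_nhds_iff.1 h1
  refine ⟨r, hr, fun θ τ h2 h3 h4 => ?_⟩
  have h5 : (θ, τ) ∈ Metric.ball (θ0, τ0) r := by
    rw [Metric.mem_ball, Prod.dist_eq, max_lt_iff]
    exact ⟨by simpa [Real.dist_eq] using h2, by simpa [Real.dist_eq] using h3⟩
  by_contra h6
  exact hb h5 ⟨h4, h6⟩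

theorem s_LA : S_LA := by
  intro a b c K ha hK θ0 τ0 h0 hτ0 hd ε hε
  obtain ⟨r, hr, hnear⟩ := near hK h0
  have hG0 : G a b c θ0 τ0 = 0 := hK.sub (θ0, τ0) h0
  set B := frm 4 b θ0 with hB
  set C := frm 8 c θ0 with hC
  set y0 : ℝ := τ0 ^ 4 with hy0
  set y1 : ℝ := -B / a - y0 with hy1
  have hy1' : a * y1 = -B - a * y0 := by
    rw [hy1]
    field_simp
  have hroot : a * y0 ^ 2 + B * y0 + C = 0 := by
    have : a * τ0 ^ 8 + B * τ0 ^ 4 + C = 0 := hG0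
    rw [hy0]
    linear_combination this
  have hfac : ∀ τ, G a b c θ0 τ = a * (τ ^ 4 - y0) * (τ ^ 4 - y1) := by
    intro τ
    show a * τ ^ 8 + B * τ ^ 4 + C = _
    linear_combination hroot + (τ ^ 4 - y0) * hy1'
  have hne : y0 - y1 ≠ 0 := by
    intro h1
    apply hd
    unfold dsc
    rw [← hB, ← hC]
    have h2 : y1 = y0 := by linarith
    rw [h2] at hy1'
    have h3 : B = -2 * a * y0 := by linarith
    have h4 : C = a * y0 ^ 2 := by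
      rw [h3] at hroot
      linarith
    rw [h3, h4]
    ring
  have hpos : 0 < (τ0 ^ 4 - y1) * (y0 - y1) := by
    rw [← hy0, ← sq]
    positivity
  have hcont : Continuous (fun τ : ℝ => (τ ^ 4 - y1) * (y0 - y1)) := by fun_prop
  have hev : ∀ᶠ τ in 𝓝 τ0, 0 < (τ ^ 4 - y1) * (y0 - y1) :=
    hcont.continuousAt.eventually (lt_mem_nhds hpos)
  obtain ⟨η0, hη0, hη⟩ := Metric.eventually_nhds_iff.1 hev
  obtain ⟨η, hηpos, hη1, hη2, hη3, hη4⟩ : ∃ η : ℝ, 0 < η ∧ η ≤ η0 / 2 ∧ η ≤ ε / 2 ∧ η ≤ r / 2 ∧ η ≤ τ0 / 2 := by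
    obtain ⟨u, hu1, hu2, hu3⟩ : ∃ u : ℝ, 0 < u ∧ u ≤ η0 / 2 ∧ u ≤ ε / 2 :=
      ⟨min (η0 / 2) (ε / 2), lt_min (half_pos hη0) (half_pos hε), min_le_left _ _, min_le_right _ _⟩
    obtain ⟨v, hv1, hv2, hv3⟩ : ∃ v : ℝ, 0 < v ∧ v ≤ r / 2 ∧ v ≤ τ0 / 2 :=
      ⟨min (r / 2) (τ0 / 2), lt_min (half_pos hr) (half_pos hτ0), min_le_left _ _, min_le_right _ _⟩
    exact ⟨min u v, lt_min hu1 hv1, (min_le_left _ _).trans hu2, (min_le_left _ _).trans hu3,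
      (min_le_right _ _).trans hv2, (min_le_right _ _).trans hv3⟩
  have hp1 : 0 < ((τ0 - η) ^ 4 - y1) * (y0 - y1) := by
    apply hη
    rw [Real.dist_eq, show τ0 - η - τ0 = -η by ring, abs_neg, abs_of_pos hηpos]
    linarith
  have hp2 : 0 < ((τ0 + η) ^ 4 - y1) * (y0 - y1) := by
    apply hη
    rw [Real.dist_eq, show τ0 + η - τ0 = η by ring, abs_of_pos hηpos]
    linarith
  have hm1 : (τ0 - η) ^ 4 < y0 := by
    rw [hy0]
    exact pow_lt_pow_left₀ (by linarith) (by linarith) (by norm_num)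
  have hm2 : y0 < (τ0 + η) ^ 4 := by
    rw [hy0]
    exact pow_lt_pow_left₀ (by linarith) (by linarith) (by norm_num)
  have hneg : G a b c θ0 (τ0 - η) * G a b c θ0 (τ0 + η) < 0 := by
    rw [hfac, hfac]
    have e1 : 0 < ((τ0 - η) ^ 4 - y1) * ((τ0 + η) ^ 4 - y1) := by
      have h1 := mul_pos hp1 hp2
      have h2 : ((τ0 - η) ^ 4 - y1) * (y0 - y1) * (((τ0 + η) ^ 4 - y1) * (y0 - y1)) =
          (((τ0 - η) ^ 4 - y1) * ((τ0 + η) ^ 4 - y1)) * (y0 - y1) ^ 2 := by ring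
      rw [h2] at h1
      exact pos_of_mul_pos_left h1 (sq_nonneg _)
    have e2 : ((τ0 - η) ^ 4 - y0) * ((τ0 + η) ^ 4 - y0) < 0 :=
      mul_neg_of_neg_of_pos (by linarith) (by linarith)
    have e3 : 0 < a ^ 2 := by positivity
    have e4 : a * ((τ0 - η) ^ 4 - y0) * ((τ0 - η) ^ 4 - y1) *
        (a * ((τ0 + η) ^ 4 - y0) * ((τ0 + η) ^ 4 - y1)) =
        (a ^ 2 * (((τ0 - η) ^ 4 - y1) * ((τ0 + η) ^ 4 - y1))) *
          (((τ0 - η) ^ 4 - y0) * ((τ0 + η) ^ 4 - y0)) := by ring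
    rw [e4]
    exact mul_neg_of_pos_of_neg (mul_pos e3 e1) e2
  have hGc : ∀ τ : ℝ, Continuous (fun θ => G a b c θ τ) := fun τ =>
    (G_cont a b c).comp (f := fun θ : ℝ => (θ, τ)) (by fun_prop)
  have hGt : ∀ θ : ℝ, Continuous (fun τ => G a b c θ τ) := fun θ =>
    (G_cont a b c).comp (f := fun τ : ℝ => (θ, τ)) (by fun_prop)
  have hcθ : Continuous (fun θ => G a b c θ (τ0 - η) * G a b c θ (τ0 + η)) :=
    (hGc _).mul (hGc _)
  have hev2 : ∀ᶠ θ in 𝓝 θ0, G a b c θ (τ0 - η) * G a b c θ (τ0 + η) < 0 :=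
    hcθ.continuousAt.eventually (gt_mem_nhds hneg)
  obtain ⟨δ0, hδ0, hδ⟩ := Metric.eventually_nhds_iff.1 hev2
  use min δ0 r
  constructor
  · exact lt_min hδ0 hr
  intro θ hθ
  have h1 : G a b c θ (τ0 - η) * G a b c θ (τ0 + η) < 0 :=
    hδ (by rw [Real.dist_eq]; exact hθ.trans_le (min_le_left _ _))
  have h2 : ∃ τ ∈ Icc (τ0 - η) (τ0 + η), G a b c θ τ = 0 := by
    rcases mul_neg_iff.1 h1 with ⟨h3, h4⟩ | ⟨h3, h4⟩
    · obtain ⟨τ, h5, h6⟩ := intermediate_value_Icc' (by linarith : τ0 - η ≤ τ0 + η)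
        (hGt θ).continuousOn (show (0 : ℝ) ∈ Icc _ _ from ⟨h4.le, h3.le⟩)
      exact ⟨τ, h5, h6⟩
    · obtain ⟨τ, h5, h6⟩ := intermediate_value_Icc (by linarith : τ0 - η ≤ τ0 + η)
        (hGt θ).continuousOn (show (0 : ℝ) ∈ Icc _ _ from ⟨h3.le, h4.le⟩)
      exact ⟨τ, h5, h6⟩
  obtain ⟨τ, ⟨h3, h4⟩, h5⟩ := h2
  have h6 : |τ - τ0| ≤ η := by
    rw [abs_le]
    constructor <;> linarith
  exact ⟨τ, by linarith, hnear θ τ (hθ.trans_le (min_le_right _ _)) (by linarith) h5⟩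

/-- the identity with the discriminant -/
lemma four_a (a : ℝ) (b c : ℕ → ℝ) (θ τ : ℝ) :
    4 * a * G a b c θ τ = (2 * a * τ ^ 4 + frm 4 b θ) ^ 2 - dsc a b c θ := by
  unfold G dsc
  ring

/-- at a minimum of the discriminant with value `0` there is no point of the curve -/
lemma dsc_ne {a : ℝ} {b c : ℕ → ℝ} (ha : a ≠ 0) (hN : NS a b c) (hd : ∀ θ, 0 ≤ dsc a b c θ)
    {θ0 τ0 : ℝ} (h0 : G a b c θ0 τ0 = 0) : dsc a b c θ0 ≠ 0 := by
  intro h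
  have hB : 2 * a * τ0 ^ 4 + frm 4 b θ0 = 0 := by
    have h1 := four_a a b c θ0 τ0
    rw [h0, h, mul_zero, sub_zero] at h1
    exact pow_eq_zero_iff (two_ne_zero) |>.1 h1.symm
  have hdd : Differentiable ℝ (dsc a b c) := by
    unfold dsc
    have h1 := frm_diff 4 b
    have h2 := frm_diff 8 c
    fun_prop
  have hmin : IsLocalMin (dsc a b c) θ0 := by
    refine Filter.Eventually.of_forall fun θ => ?_
    rw [h]
    exact hd θ
  have hder : HasDerivAt (dsc a b c) 0 θ0 := by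
    have h1 := (hdd θ0).hasDerivAt
    rwa [hmin.deriv_eq_zero] at h1
  refine hN θ0 τ0 h0 ?_ ?_
  · have h1 : (fun x : ℝ => G a b c x τ0) =
        fun x => ((2 * a * τ0 ^ 4 + frm 4 b x) ^ 2 - dsc a b c x) / (4 * a) := by
      funext x
      rw [← four_a a b c x τ0]
      field_simp
    rw [h1]
    have h2 : HasDerivAt (fun x => 2 * a * τ0 ^ 4 + frm 4 b x) (deriv (frm 4 b) θ0) θ0 :=
      ((frm_diff 4 b θ0).hasDerivAt).const_add _
    have h3 := ((h2.pow 2).sub hder).div_const (4 * a)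
    convert! h3 using 1
    rw [hB]
    simp
  · have h1 : (fun x : ℝ => G a b c θ0 x) = fun x => a * (x ^ 4 - τ0 ^ 4) ^ 2 := by
      funext x
      have h2 := four_a a b c θ0 x
      rw [h, sub_zero] at h2
      have h3 : frm 4 b θ0 = -(2 * a * τ0 ^ 4) := by linarith
      rw [h3] at h2
      have h4 : 4 * a * G a b c θ0 x = 4 * a * (a * (x ^ 4 - τ0 ^ 4) ^ 2) := by
        rw [h2]
        ring
      exact mul_left_cancel₀ (by positivity) h4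
    rw [h1]
    have h2 : HasDerivAt (fun x : ℝ => x ^ 4 - τ0 ^ 4) (4 * τ0 ^ 3) τ0 := by
      simpa using (hasDerivAt_pow 4 τ0).sub_const (τ0 ^ 4)
    have h3 := (h2.pow 2).const_mul a
    convert! h3 using 1
    simp

lemma frm_bdd (n : ℕ) (h : ℕ → ℝ) : ∃ M : ℝ, 0 ≤ M ∧ ∀ θ, |frm n h θ| ≤ M := by
  refine ⟨∑ i ∈ Finset.range (n + 1), |h i|, Finset.sum_nonneg fun i _ => abs_nonneg _, fun θ => ?_⟩
  unfold frm
  refine (Finset.abs_sum_le_sum_abs _ _).trans (Finset.sum_le_sum fun i _ => ?_)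
  rw [abs_mul, abs_mul, abs_pow, abs_pow]
  have h1 : |Real.cos θ| ^ i ≤ 1 := pow_le_one₀ (abs_nonneg _) (Real.abs_cos_le_one θ)
  have h2 : |Real.sin θ| ^ (n - i) ≤ 1 := pow_le_one₀ (abs_nonneg _) (Real.abs_sin_le_one θ)
  have h3 : |h i| * |Real.cos θ| ^ i ≤ |h i| := mul_le_of_le_one_right (abs_nonneg _) h1
  exact (mul_le_of_le_one_right (by positivity) h2).trans h3

/-- the points of the curve with `τ ≥ 0` are bounded -/
lemma tau_bdd {a : ℝ} (b c : ℕ → ℝ) (ha : a ≠ 0) : ∃ R : ℝ, ∀ θ τ : ℝ, 0 ≤ τ →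
    G a b c θ τ = 0 → τ ≤ R := by
  obtain ⟨β, hβ, hb⟩ := frm_bdd 4 b
  obtain ⟨γ, hγ, hc⟩ := frm_bdd 8 c
  have ha' : 0 < |a| := abs_pos.2 ha
  refine ⟨max 1 ((β + γ) / |a|), fun θ τ hτ h => ?_⟩
  by_cases h1 : τ ≤ 1
  · exact h1.trans (le_max_left _ _)
  push Not at h1
  refine le_trans ?_ (le_max_right _ _)
  rw [le_div_iff₀ ha']
  set y := τ ^ 4 with hy
  have hy1 : 1 ≤ y := one_le_pow₀ h1.le
  have hτy : τ ≤ y := by
    rw [hy]
    calc τ = τ ^ 1 := (pow_one τ).symm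
      _ ≤ τ ^ 4 := pow_le_pow_right₀ h1.le (by norm_num)
  have h2 : a * y ^ 2 = -(frm 4 b θ * y + frm 8 c θ) := by
    have h3 : a * τ ^ 8 + frm 4 b θ * τ ^ 4 + frm 8 c θ = 0 := h
    rw [hy]
    linear_combination h3
  have h3 : |a| * y ^ 2 ≤ β * y + γ := by
    have h4 : |a| * y ^ 2 = |a * y ^ 2| := by rw [abs_mul, abs_of_nonneg (sq_nonneg y)]
    rw [h4, h2, abs_neg]
    refine (abs_add_le _ _).trans (add_le_add ?_ (hc θ))
    rw [abs_mul, abs_of_nonneg (by linarith : 0 ≤ y)]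
    exact mul_le_mul_of_nonneg_right (hb θ) (by linarith)
  have h4 : |a| * y ^ 2 ≤ (β + γ) * y := by nlinarith
  have h5 : |a| * y ≤ β + γ := by
    have h6 : (|a| * y) * y ≤ (β + γ) * y := by linarith [h4, (by ring : (|a| * y) * y = |a| * y ^ 2)]
    exact le_of_mul_le_mul_right h6 (by linarith)
  nlinarith

theorem s_OPN (hLA : S_LA) : S_OPN := by
  intro a b c K ha hN hK hd hz hex
  set T : Set ℝ := {θ | ∃ τ : ℝ, 0 < τ ∧ (θ, τ) ∈ K} with hT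
  have hne : T.Nonempty := by
    obtain ⟨p, hp, hp2⟩ := hex
    exact ⟨p.1, p.2, hp2, hp⟩
  have hopen : IsOpen T := by
    rw [Metric.isOpen_iff]
    rintro θ0 ⟨τ0, hτ0, h0⟩
    obtain ⟨δ, hδ, h1⟩ := hLA a b c K ha hK θ0 τ0 h0 hτ0 (dsc_ne ha hN hd (hK.sub (θ0, τ0) h0)) τ0 hτ0
    refine ⟨δ, hδ, fun θ hθ => ?_⟩
    rw [Metric.mem_ball, Real.dist_eq] at hθ
    obtain ⟨τ, h2, h3⟩ := h1 θ hθ
    rw [abs_lt] at h2
    exact ⟨τ, by linarith, h3⟩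
  obtain ⟨R, hR⟩ := tau_bdd b c ha
  have hclosed : IsClosed T := by
    apply IsSeqClosed.isClosed
    intro u θ hu hlim
    choose τ hτ hK' using hu
    have h1 : ∀ n, τ n ∈ Icc (0 : ℝ) R := fun n => ⟨(hτ n).le, hR (u n) (τ n) (hτ n).le (hK.sub (u n, τ n) (hK' n))⟩
    obtain ⟨t, ht, φ, hφ, hlim2⟩ := isCompact_Icc.tendsto_subseq h1
    have h2 : Tendsto (fun n => (u (φ n), τ (φ n))) atTop (𝓝 (θ, t)) :=
      (hlim.comp hφ.tendsto_atTop).prodMk_nhds hlim2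
    have h3 : (θ, t) ∈ K := hK.closed.mem_of_tendsto h2 (Eventually.of_forall fun n => hK' (φ n))
    refine ⟨t, lt_of_le_of_ne ht.1 fun h => ?_, h3⟩
    rw [← h] at h3
    exact hz θ h3
  have huniv : T = univ := IsClopen.eq_univ ⟨hclosed, hopen⟩ hne
  intro θ
  have : θ ∈ T := by rw [huniv]; exact mem_univ _
  exact this

end Pool.Agent.L7h87.HF
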